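import Pool.Agent.H.MP_f04b5a_an.A

set_option autoImplicit false

namespace Pool.Agent.Results.MP_f04b5a_an.Ari
open Metric Set

/-- The class `S` of normalised univalent functions on the unit disc. -/
def InS (f : ℂ → ℂ) : Prop :=
  DifferentiableOn ℂ f (ball 0 1) ∧ InjOn f (ball 0 1) ∧ f 0 = 0 ∧ deriv f 0 = 1

theorem result (α : ℝ) (h0 : 0 < α) (h1 : α ≤ 1 / 3) :
    ∃ f g : ℂ → ℂ, InS f ∧ InS g ∧ ∃ w : ℂ,
      {z : ℂ | z ∈ ball (0 : ℂ) 1 ∧ (α : ℂ) * f z + (1 - (α : ℂ)) * g z = w}.Infinite :=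
  H.MP_f04b5a_an.arith h0 h1

end Pool.Agent.Results.MP_f04b5a_an.Ari
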