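import Pool.Agent.H.MP_f04b5a_an.A

set_option autoImplicit false

namespace Pool.Agent.Results.MP_f04b5a_an.Geo
open Metric Set

/-- The class `S` of normalised univalent functions on the unit disc. -/
def InS (f : ℂ → ℂ) : Prop :=
  DifferentiableOn ℂ f (ball 0 1) ∧ InjOn f (ball 0 1) ∧ f 0 = 0 ∧ deriv f 0 = 1

/-- `L` is the branch of `log (f z / z)` on the unit disc vanishing at the origin. -/
def IsLog (f L : ℂ → ℂ) : Prop :=
  DifferentiableOn ℂ L (ball 0 1) ∧ L 0 = 0 ∧ ∀ z ∈ ball (0 : ℂ) 1, f z = z * Complex.exp (L z)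

theorem result (α : ℝ) (h0 : 0 < α) (h1 : α ≤ 1 / 2) :
    ∃ f g Lf Lg : ℂ → ℂ, InS f ∧ InS g ∧ IsLog f Lf ∧ IsLog g Lg ∧ ∃ w : ℂ,
      {z : ℂ | z ∈ ball (0 : ℂ) 1 ∧ z * Complex.exp (α * Lf z + (1 - α) * Lg z) = w}.Infinite :=
  H.MP_f04b5a_an.geom h0 h1

end Pool.Agent.Results.MP_f04b5a_an.Geo
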